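import Pool.Agent.W670.TL.Defs

set_option autoImplicit false

namespace Pool.Agent.W702.TL

open Pool.Agent.W670.TL

theorem npr (h1 : S_RAM) : S_NPR := by
  intro M _ _ q Z Y hq hY
  set S : Set ℕ := {p : ℕ | p.Prime ∧ p ≤ Z ∧ ∃ a : M, a ^ q = (p : M)} with hS
  have hfin : S.Finite := (Set.finite_Iic Z).subset (fun p hp => hp.2.1)
  set s : Finset ℕ := hfin.toFinset with hs
  have hmem : ∀ p, p ∈ s ↔ p ∈ S := fun p => hfin.mem_toFinset
  have hcard : S.ncard = s.card := Set.ncard_eq_toFinset_card S hfin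
  have hd0 : (NumberField.discr M).natAbs ≠ 0 := Int.natAbs_ne_zero.2 (NumberField.discr_ne_zero M)
  have hdvd : ∏ p ∈ s, p ∣ (NumberField.discr M).natAbs := by
    refine Finset.prod_primes_dvd _ (fun p hp => ?_) (fun p hp => ?_)
    · exact ((hmem p).1 hp).1.prime
    · obtain ⟨hp1, _, a, ha⟩ := (hmem p).1 hp
      have := h1 M q p a hp1 hq ha
      exact Int.natCast_dvd.1 this
  have h2 : 2 ^ s.card ≤ (NumberField.discr M).natAbs := by
    refine le_trans ?_ (Nat.le_of_dvd (Nat.pos_of_ne_zero hd0) hdvd)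
    rw [← Finset.prod_const]
    exact Finset.prod_le_prod' (fun p hp => ((hmem p).1 hp).1.two_le)
  have h3 : (2 : ℝ) ^ s.card ≤ Y := by
    refine le_trans ?_ hY
    have : ((2 ^ s.card : ℕ) : ℝ) ≤ (((NumberField.discr M).natAbs : ℕ) : ℝ) := by exact_mod_cast h2
    simpa [D, Nat.cast_natAbs] using this
  rw [hcard]
  have hYpos : 0 < Y := lt_of_lt_of_le (by positivity) h3
  rw [Real.le_logb_iff_rpow_le (by norm_num) hYpos, Real.rpow_natCast]
  exact h3

end Pool.Agent.W702.TL
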